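import Pool.Agent.Lib.MP_1ad17e_al_helper12.Defs

/-! Task T1 of MP_1ad17e_al: powers of elements of a nilpotent group lie in `Q`. -/

namespace E1ad.helper20


open scoped commutatorElement

variable {H : Type*} [Group H]

/-- The subgroup generated by the elements `y ^ (2 ^ l)` with `y` in `Z_b`, `b ≤ i` and
`j + b ≤ l + i`. -/
def HH (H : Type*) [Group H] (i j : ℕ) : Subgroup H :=
  Subgroup.closure {z | ∃ b l : ℕ, ∃ y ∈ Subgroup.upperCentralSeries H b, b ≤ i ∧ j + b ≤ l + i ∧
    z = y ^ (2 ^ l)}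

lemma mem_HH {i j b l : ℕ} {y : H} (hy : y ∈ Subgroup.upperCentralSeries H b) (hb : b ≤ i)
    (h : j + b ≤ l + i) : y ^ (2 ^ l) ∈ HH H i j :=
  Subgroup.subset_closure ⟨b, l, y, hy, hb, h, rfl⟩

lemma HH_le {i j i' j' : ℕ} (h : ∀ b l : ℕ, b ≤ i → j + b ≤ l + i → b ≤ i' ∧ j' + b ≤ l + i') :
    HH H i j ≤ HH H i' j' := by
  refine (Subgroup.closure_le _).2 ?_
  rintro z ⟨b, l, y, hy, hb, h1, rfl⟩
  exact mem_HH hy (h b l hb h1).1 (h b l hb h1).2

instance HH_normal (i j : ℕ) : (HH H i j).Normal := by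
  constructor
  intro x hx g
  induction hx using Subgroup.closure_induction with
  | mem z hz =>
    obtain ⟨b, l, y, hy, hb, h1, rfl⟩ := hz
    rw [← conj_pow]
    exact mem_HH ((inferInstance : (Subgroup.upperCentralSeries H b).Normal).conj_mem y hy g) hb h1
  | one => simp
  | mul a b _ _ ha hb =>
    have : g * (a * b) * g⁻¹ = (g * a * g⁻¹) * (g * b * g⁻¹) := by group
    rw [this]
    exact mul_mem ha hb
  | inv a _ ha =>
    have : g * a⁻¹ * g⁻¹ = (g * a * g⁻¹)⁻¹ := by group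
    rw [this]
    exact inv_mem ha

/-- The elements whose commutators with everything lie in the normal subgroup `N`. -/
lemma comm_closure (N : Subgroup H) [N.Normal] {s : Set H}
    (hs : ∀ z ∈ s, ∀ u : H, ⁅z, u⁆ ∈ N) : ∀ z ∈ Subgroup.closure s, ∀ u : H, ⁅z, u⁆ ∈ N := by
  intro z hz
  induction hz using Subgroup.closure_induction with
  | mem z hz => exact hs z hz
  | one => intro u; simp
  | mul a b _ _ ha hb =>
    intro u
    have : ⁅a * b, u⁆ = (a * ⁅b, u⁆ * a⁻¹) * ⁅a, u⁆ := by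
      simp only [commutatorElement_def]; group
    rw [this]
    exact mul_mem (Subgroup.Normal.conj_mem inferInstance _ (hb u) a) (ha u)
  | inv a _ ha =>
    intro u
    have : ⁅a⁻¹, u⁆ = a⁻¹ * ⁅a, u⁆⁻¹ * a⁻¹⁻¹ := by
      simp only [commutatorElement_def]; group
    rw [this]
    exact Subgroup.Normal.conj_mem inferInstance _ (inv_mem (ha u)) a⁻¹

lemma claimC (i : ℕ) : ∀ x ∈ Subgroup.upperCentralSeries H (i + 1), ∀ (j : ℕ) (u : H),
    ⁅x ^ (2 ^ j), u⁆ ∈ HH H i j := by
  induction i using Nat.strong_induction_on with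
  | _ i ih =>
    -- fact F
    have hF : ∀ j : ℕ, ∀ h ∈ HH H i j, ∀ u : H, ⁅h, u⁆ ∈ HH H i (j + 1) := by
      intro j
      refine comm_closure (HH H i (j + 1)) ?_
      rintro z ⟨b, l, y, hy, hb, h1, rfl⟩ u
      rcases Nat.eq_zero_or_pos b with rfl | hb0
      · rw [Subgroup.upperCentralSeries_zero, Subgroup.mem_bot] at hy
        subst hy
        simp
      · obtain ⟨b', rfl⟩ : ∃ b', b = b' + 1 := ⟨b - 1, by omega⟩
        refine HH_le ?_ (ih b' (by omega) y hy l u)
        intro c m hc hm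
        omega
    -- fact S
    have hS : ∀ j : ℕ, ∀ h ∈ HH H i j, h ^ 2 ∈ HH H i (j + 1) := by
      intro j h hh
      have key : h ∈ HH H i j ∧ h ^ 2 ∈ HH H i (j + 1) := by
        induction hh using Subgroup.closure_induction with
        | mem z hz =>
          obtain ⟨b, l, y, hy, hb, h1, rfl⟩ := hz
          refine ⟨mem_HH hy hb h1, ?_⟩
          rw [← pow_mul, ← pow_succ]
          exact mem_HH hy hb (by omega)
        | one => exact ⟨one_mem _, by simp⟩
        | mul a b _ _ ha hb =>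
          refine ⟨mul_mem ha.1 hb.1, ?_⟩
          have : (a * b) ^ 2 = a ^ 2 * ⁅a⁻¹, b⁆ * b ^ 2 := by
            simp only [commutatorElement_def, pow_two]; group
          rw [this]
          exact mul_mem (mul_mem ha.2 (hF j _ (inv_mem ha.1) b)) hb.2
        | inv a _ ha =>
          refine ⟨inv_mem ha.1, ?_⟩
          rw [inv_pow]
          exact inv_mem ha.2
      exact key.2
    intro x hx j
    induction j with
    | zero =>
      intro u
      rw [pow_zero, pow_one]
      have h := Subgroup.mem_upperCentralSeries_succ_iff.1 hx u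
      have h2 := mem_HH (i := i) (j := 0) (l := 0) h le_rfl (by omega)
      rwa [pow_zero, pow_one] at h2
    | succ j ihj =>
      intro u
      set a := x ^ (2 ^ j) with ha
      have e1 : x ^ (2 ^ (j + 1)) = a ^ 2 := by rw [ha, ← pow_mul, ← pow_succ]
      rw [e1]
      set h := ⁅a, u⁆ with hh
      have hmem : h ∈ HH H i j := ihj u
      have e2 : ⁅a ^ 2, u⁆ = ⁅h, a⁆⁻¹ * h ^ 2 := by
        rw [hh]
        simp only [commutatorElement_def, pow_two]
        simp only [mul_assoc, mul_inv_rev, inv_inv, inv_mul_cancel_left, mul_inv_cancel_left]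
      rw [e2]
      exact mul_mem (inv_mem (hF j h hmem a)) (hS j h hmem)

lemma claimP (Q : Subgroup H)
    (hQ : ∀ y : H, (∀ q ∈ Q, ⁅y, q⁆ ∈ Phi Q) → y ∈ Q) (i : ℕ) :
    ∀ x ∈ Subgroup.upperCentralSeries H (i + 1), x ^ (2 ^ i) ∈ Q := by
  induction i using Nat.strong_induction_on with
  | _ i ih =>
    intro x hx
    refine hQ _ fun q _ => ?_
    have h1 := claimC i x hx i q
    have h2 : HH H i i ≤ Phi Q := by
      refine (Subgroup.closure_le _).2 ?_
      rintro z ⟨b, l, y, hy, hb, h1, rfl⟩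
      rcases Nat.eq_zero_or_pos b with rfl | hb0
      · rw [Subgroup.upperCentralSeries_zero, Subgroup.mem_bot] at hy
        subst hy
        simp
      · obtain ⟨b', rfl⟩ : ∃ b', b = b' + 1 := ⟨b - 1, by omega⟩
        have h3 := ih b' (by omega) y hy
        obtain ⟨m, rfl⟩ : ∃ m, l = b' + 1 + m := ⟨l - (b' + 1), by omega⟩
        have h4 : y ^ (2 ^ (b' + 1 + m)) = ((y ^ (2 ^ b')) ^ 2) ^ (2 ^ m) := by
          rw [← pow_mul, ← pow_mul, pow_add, pow_succ, mul_assoc]
        rw [h4]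
        have h5 : (y ^ (2 ^ b')) ^ 2 ∈ Phi Q := Subgroup.subset_closure ⟨y ^ (2 ^ b'), h3, rfl⟩
        exact pow_mem h5 _
    exact h2 h1

/-- T1 (file LemU.lean) -/
theorem lemmaU {H : Type*} [Group H] (n : ℕ) (hn : 1 ≤ n)
    (hH : Subgroup.upperCentralSeries H n = ⊤) (Q : Subgroup H)
    (hQ : ∀ y : H, (∀ q ∈ Q, ⁅y, q⁆ ∈ Phi Q) → y ∈ Q) (x : H) :
    x ^ (2 ^ (n - 1)) ∈ Q := by
  refine claimP Q hQ (n - 1) x ?_
  rw [Nat.sub_add_cancel hn, hH]
  exact Subgroup.mem_top x

end E1ad.helper20
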